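import Pool.Agent.Helper62.MonoS.RootS

/-!
# Polynomials which are Newton nondegenerate up to finitely many points, without any hypothesis on
coordinate planes
-/

namespace Mono

namespace LocW

open Finset Fin20

variable {n : ℕ}

theorem mainS (hNF : NewtonFan) (hFB : FanB) (hCS : CellSum) (hCL : CellLat) (hDF : DualFan) (hZ : ZFormula)
    (hE : ZEval) (hP : PoleLemma) (hM : ClassMain) (hFS : FaceSumMult) (hC : CycloLemma)
    (hLT : LinkTri) (hLS : LinkSum) (hMN : MultNonneg)
    (hZW : ZWIdentity) (hNV : NvolSum) (hLD : LowDegree)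
    (hVH : VolHeight) (hAM : AlgMain) (hMF : MultFormula) (hPV : PairVanish)
    (hBox : BoxCount) (hS : SpanT) (hSC : StarCoverT)
    {r : ℕ} (f : MvPolynomial (Fin n) ℂ) (p : Fin r → PointData n)
    (par : Fin r → Option (Fin r)) (hf : f ≠ 0) (h0 : f.coeff 0 = 0)
    (hp : ∀ i, (p i).Good) (b : Fin n → ℝ) (hb : ∀ i, 0 < b i) (hlin : LinearIndependent ℚ b) :
    (∃ T : Fan n, Adapted (expo f) T) ∧ (∀ i, ∃ T : Fan n, Adapted (p i).A T) ∧
    ∀ (T : Fan n) (Tp : Fin r → Fan n), Adapted (expo f) T → (∀ i, Adapted (p i).A (Tp i)) →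
    ∀ s₀ : ℂ, (ZTot f p T Tp).denom.eval s₀ = 0 →
      (∃ k : ℤ, s₀ = k) ∨
      ZeroOrPole (zetaTot f p) (Complex.exp (2 * Real.pi * Complex.I * s₀)) ∨
      (∃ K : Finset (Fin n), K.Nonempty ∧
        (∀ d : Fin n →₀ ℕ, (∀ i, i ∉ K → d i = 0) → f.coeff d = 0) ∧
        ZeroOrPole (zetaS (expo f) K b) (Complex.exp (2 * Real.pi * Complex.I * s₀))) ∨
      (∃ i, (∀ d : ℕ, (p i).h.coeff (Finsupp.single (p i).z d) = 0) ∧
        ZeroOrPole (zetaV (projK (p i).z (p i).A))
          (Complex.exp (2 * Real.pi * Complex.I * s₀))) ∨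
      (∃ v, (∃ i, par i = v ∧ ∃ k : ℤ, ((p i).N : ℂ) * s₀ = k) ∧
        multV (nodeA f p v) s₀ ≤ kapSum p par v s₀) := by
  classical
  have hnn := nonneg_expo f
  have h0A := zero_notMem_expo f h0
  have hne : (expo f).Nonempty := by
    obtain ⟨d, hd⟩ := MvPolynomial.ne_zero_iff.1 hf
    exact ⟨_, Finset.mem_image.2 ⟨d, MvPolynomial.mem_support_iff.2 hd, rfl⟩⟩
  have hn : 0 < n := by
    rcases Nat.eq_zero_or_pos n with h | h
    · subst h
      obtain ⟨v, hv⟩ := hne
      exact absurd (by rwa [Subsingleton.elim v 0] at hv) h0A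
    · exact h
  have hch : ∀ i, Chart (p i).z (p i).N (p i).A := fun i => (chart_of_good (hp i)).1
  have hpne : ∀ i, (p i).A.Nonempty := fun i => (chart_of_good (hp i)).2
  refine ⟨hDF n _ hne hnn, fun i => hDF n _ (hpne i) (hch i).nonneg, ?_⟩
  intro T Tp hT hTp s₀ hs₀
  -- the poles of the summands
  have hpoles : s₀ = -1 ∨ ∃ q : ℚ, s₀ = -(q : ℂ) ∧ (q.den = 1 ∨ (∃ K : Finset (Fin n), ES (expo f) K b q.den ≠ 0) ∨
      ∃ i, (q.den ∣ (p i).N ∨ EV (p i).A q.den ≠ 0 ∨
        ((projK (p i).z (p i).A).Nonempty ∧ (∀ v ∈ projK (p i).z (p i).A, ∀ i, 0 ≤ v i) ∧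
        (0 : Fin n → ℤ) ∉ projK (p i).z (p i).A ∧ EV (projK (p i).z (p i).A) q.den ≠ 0))) := by
    unfold ZTot at hs₀
    rcases denom_add_root hs₀ with h | h
    · rcases rootPoleS hFB hZ hE hP hM hCS hn hne hnn h0A hb hlin T hT s₀ h with
        h1 | ⟨q, hq, h1⟩
      · exact Or.inl h1
      · refine Or.inr ⟨q, hq, ?_⟩
        rcases h1 with h1 | h1
        · exact Or.inl h1
        · exact Or.inr (Or.inl h1)
    · obtain ⟨i, _, hi⟩ := denom_sum_root _ _ h
      rcases denom_add_root hi with h1 | h1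
      · rcases corr_root h1 with h2 | h2
        · exact Or.inl h2
        · right
          have hN : ((p i).N : ℂ) ≠ 0 := by
            have := (hp i).1
            exact_mod_cast this.ne'
          have hs : s₀ = -((((p i).ν : ℚ) / ((p i).N : ℚ) : ℚ) : ℂ) := by
            push_cast
            field_simp
            linear_combination h2
          refine ⟨_, hs, Or.inr (Or.inr ⟨i, Or.inl ?_⟩)⟩
          rw [← int_iff hs]
          exact ⟨-((p i).ν : ℤ), by push_cast; linear_combination h2⟩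
      · rcases localPole hNF hZW hNV hLD hVH hAM hMF hPV hFS hLT hLS (hp i).2.1 (hch i) (hpne i)
          (Tp i) (hTp i) s₀ h1 with h2 | ⟨q, _, hq, h2⟩
        · exact Or.inl h2
        · exact Or.inr ⟨q, hq, Or.inr (Or.inr ⟨i, h2⟩)⟩
  rcases hpoles with h | ⟨q, hq, hcase⟩
  · exact Or.inl ⟨-1, by simp [h]⟩
  by_cases hden : q.den = 1
  · left
    refine ⟨-q.num, ?_⟩
    rw [hq]
    have : q = (q.num : ℚ) := by
      conv_lhs => rw [← Rat.num_div_den q]
      rw [hden]; simp
    rw [this]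
    push_cast
    simp
  right
  have hprim := primitive_exp q
  rw [← hq] at hprim
  by_contra hcon
  rw [not_or, not_or, not_or] at hcon
  obtain ⟨hc1, hc2, hc3, hc4⟩ := hcon
  have hax : ∀ K : Finset (Fin n), K.Nonempty → ES (expo f) K b q.den = 0 := by
    intro K hK
    by_contra hEV
    refine hc2 ⟨K, hK, ?_, zop_of_ES hC hCL q.den_nz hprim hEV⟩
    intro d hd
    by_contra hdc
    obtain ⟨φ, hφ, _⟩ := Finset.exists_ne_zero_of_sum_ne_zero hEV
    refine no_supp_of_cell (Finset.mem_filter.1 hφ).1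
      (Finset.mem_image.2 ⟨d, MvPolynomial.mem_support_iff.2 hdc, rfl⟩) ?_
    intro i hi
    simp [hd i hi]
  have haxp : ∀ i, (projK (p i).z (p i).A).Nonempty →
      (∀ v ∈ projK (p i).z (p i).A, ∀ i, 0 ≤ v i) →
      (0 : Fin n → ℤ) ∉ projK (p i).z (p i).A → EV (projK (p i).z (p i).A) q.den = 0 := by
    intro i hne' hnn' h0'
    by_contra hEV
    refine hc3 ⟨i, ?_, zop_of_EV hC hne' hnn' h0' q.den_nz hprim hEV⟩
    intro d
    by_contra hd
    have hdA := (mem_A_iff (p i) _).2 ⟨Finsupp.single (p i).z d, hd, rfl⟩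
    apply h0'
    refine Finset.mem_image.2 ⟨_, hdA, ?_⟩
    funext l
    by_cases hl : l = (p i).z
    · subst hl; simp
    · simp [Function.update_of_ne hl, Finsupp.single_eq_of_ne hl, Pi.single_eq_of_ne hl]
  -- the total exponent
  have hexp : HasExp (zetaTot f p) (fun m => EV (expo f) m +
      ∑ i, ((if m ∣ (p i).N then (-1) ^ n * ((p i).κ : ℤ) else 0) + EV (p i).A m)) := by
    unfold zetaTot
    refine (hasExp_zetaV hne hnn h0A).mul (HasExp.prod _ _ _ fun i _ => ?_)
    exact (HasExp.pow (hp i).1.ne' _).mul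
      (hasExp_zetaV (hpne i) (hch i).nonneg (hch i).zero_notMem)
  have htot : EV (expo f) q.den + ∑ i, ((if q.den ∣ (p i).N then (-1) ^ n * ((p i).κ : ℤ) else 0)
      + EV (p i).A q.den) = 0 := by
    by_contra hEV
    exact hc1 (hexp.zop hC q.den_nz hprim hEV)
  -- nonnegativity
  have hroot := root_nonnegS hFB hMN hFS hCS hne hnn h0A hb hlin q.den_nz hden hax
  have hpt : ∀ i, 0 ≤ (-1) ^ (n - 1) * EV (p i).A q.den := by
    intro i
    by_cases hd : q.den ∣ (p i).N
    · exact posW hNF hNV hBox hS hSC hFS hLT hLS (hch i) (hpne i) q.den_nz hden hd (haxp i)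
    · exact posW' hNF hMN hFS hLT hLS (hch i) (hpne i) q.den_nz hd (haxp i)
  have hsign : (-1 : ℤ) ^ (n - 1) * (-1) ^ n = -1 := by
    rw [← pow_add]
    have : n - 1 + n = 2 * (n - 1) + 1 := by omega
    rw [this, pow_succ, pow_mul]
    simp
  have hsum : (-1) ^ (n - 1) * EV (expo f) q.den + ∑ i, (-1) ^ (n - 1) * EV (p i).A q.den =
      ∑ i, if q.den ∣ (p i).N then ((p i).κ : ℤ) else 0 := by
    have h1 := congrArg (fun x => (-1 : ℤ) ^ (n - 1) * x) htot
    simp only [mul_zero, mul_add, Finset.mul_sum] at h1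
    rw [Finset.sum_add_distrib] at h1
    have h2 : ∑ i, (-1 : ℤ) ^ (n - 1) * (if q.den ∣ (p i).N then (-1) ^ n * ((p i).κ : ℤ) else 0)
        = - ∑ i, if q.den ∣ (p i).N then ((p i).κ : ℤ) else 0 := by
      rw [← Finset.sum_neg_distrib]
      refine Finset.sum_congr rfl fun i _ => ?_
      split_ifs
      · rw [← mul_assoc, hsign]; ring
      · simp
    rw [h2] at h1
    linarith
  by_cases hex : ∃ i, q.den ∣ (p i).N
  · obtain ⟨i, hi⟩ := hex
    have hkv : ∀ v, kapSum p par v s₀ =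
        ∑ i, if par i = v then (if q.den ∣ (p i).N then ((p i).κ : ℤ) else 0) else 0 := by
      intro v
      unfold kapSum
      rw [← Finset.sum_filter, ← Finset.sum_filter, Finset.filter_filter]
      refine Finset.sum_congr ?_ fun _ _ => rfl
      ext i
      simp only [mem_filter, int_iff hq]
    have hkt : ∑ v, kapSum p par v s₀ = ∑ i, if q.den ∣ (p i).N then ((p i).κ : ℤ) else 0 := by
      simp only [hkv]
      rw [Finset.sum_comm]
      refine Finset.sum_congr rfl fun i _ => ?_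
      rw [Finset.sum_ite_eq]
      simp
    have hmt : ∑ v, multV (nodeA f p v) s₀ =
        (-1) ^ (n - 1) * EV (expo f) q.den + ∑ i, (-1) ^ (n - 1) * EV (p i).A q.den := by
      rw [Fintype.sum_option]
      simp only [nodeA, multV_eq hq]
    have hlt : ∑ v, kapSum p par v s₀ < ∑ v, multV (nodeA f p v) s₀ := by
      refine Finset.sum_lt_sum (fun v _ => ?_) ⟨par i, Finset.mem_univ _, ?_⟩
      · by_cases hv : ∃ i, par i = v ∧ ∃ k : ℤ, ((p i).N : ℂ) * s₀ = k
        · by_contra hlt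
          exact hc4 ⟨v, hv, (not_le.1 hlt).le⟩
        · have hk0 : kapSum p par v s₀ = 0 := by
            unfold kapSum
            rw [Finset.filter_false_of_mem (fun i _ hi => hv ⟨i, hi⟩), Finset.sum_empty]
          rw [hk0]
          cases v with
          | none => rw [nodeA, multV_eq hq]; exact hroot
          | some j => rw [nodeA, multV_eq hq]; exact hpt j
      · by_contra hlt
        exact hc4 ⟨par i, ⟨i, rfl, (int_iff hq _).2 hi⟩, not_lt.1 hlt⟩
    rw [hkt, hmt, hsum] at hlt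
    exact lt_irrefl _ hlt
  · push Not at hex
    rw [Finset.sum_eq_zero (s := univ) (f := fun i => if q.den ∣ (p i).N then
      ((p i).κ : ℤ) else 0) (fun i _ => if_neg (hex i))] at hsum
    have hs := Finset.sum_nonneg (s := univ) (fun i _ => hpt i)
    have hu : ∀ {x : ℤ}, (-1 : ℤ) ^ (n - 1) * x = 0 → x = 0 := by
      intro x hx
      rcases mul_eq_zero.1 hx with h | h
      · exact absurd h (pow_ne_zero _ (by norm_num))
      · exact h
    have hr0 : EV (expo f) q.den = 0 := hu (by linarith)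
    have hp0 : ∀ i, EV (p i).A q.den = 0 := by
      intro i
      have h1 : ∑ i, (-1 : ℤ) ^ (n - 1) * EV (p i).A q.den = 0 := by linarith
      exact hu ((Finset.sum_eq_zero_iff_of_nonneg (fun i _ => hpt i)).1 h1 i (Finset.mem_univ i))
    rcases hcase with h | ⟨K, h⟩ | ⟨i, h | h | ⟨h1, h2, h3, h4⟩⟩
    · exact hden h
    · by_cases hK : K.Nonempty
      · exact h (hax K hK)
      · rw [Finset.not_nonempty_iff_eq_empty.1 hK, ES_empty hne hnn h0A hb] at h
        exact h hr0
    · exact hex i h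
    · exact h (hp0 i)
    · exact h4 (haxp i h1 h2 h3)

end LocW

end Mono
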