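import Pool.Agent.Helper33.Mono.All
import Pool.Agent.Helper10.Mono.NewtonFan
import Pool.Agent.Helper24.Mono.LinkTri
import Pool.Agent.Helper32.Mono.LinkSum
import Pool.Agent.Helper62.MonoW.Main

/-!
# The local topological monodromy conjecture for functions which are Newton nondegenerate up to
finitely many points (Le-Yomdin singularities in every dimension)

Let `f ≠ 0` be a polynomial in `n` variables with `f(0) = 0` such that for all `i ≠ j` some
monomial of `f` involves at most the variables `x_i, x_j`.  We allow `f` to be degenerate with
respect to its Newton polyhedron, in the following controlled way.  In the toric modification given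
by the dual fan, the proper transform of `f` may be singular at finitely many points of the open
orbits of the exceptional divisors of the compact facets; at each such point, in suitable local
coordinates in which the divisor is `{x_z = 0}`, the function is `x_z^N h` (`N` the multiplicity of
`f` along the divisor), the form `dx_1 ∧ … ∧ dx_n` becomes `x_z^{ν-1} dx`, and `x_z^N h` is Newton
nondegenerate, the restriction of `h` to the divisor being convenient (and `κ` is the Milnor number
of that restriction); or `x_z^N h` is again degenerate at finitely many points of the same kind, and
so on.  The finite list `p` contains all these points.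

By the formula of Denef and Loeser, the additivity of Euler characteristics, the theorems of
A'Campo and Varchenko:

* `ZTot f p T Tp` is the local topological zeta function of `f` at the origin: the facet orbit of a
  degenerate divisor meets the proper transform in a hypersurface whose Euler characteristic is the
  nondegenerate one plus `(-1)^(n-1)` times the sum of the Milnor numbers `κ`;
* `zetaTot f p` is the monodromy zeta function of `f` at the origin;
* `zetaV (projK k (expo f))` and `zetaV (projK z (p i).A)` are the monodromy zeta functions of `f`
  at general points of curves contained in the zero set (a coordinate axis, the image of the axis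
  `x_z` of the chart).

For `r = 0` there are no such points and this is the theorem for nondegenerate `f`.  Examples with
`r > 0`: `f = f_d + f_{d+k} + …` where the projective hypersurface `f_d = 0` has isolated
singularities (blow up the origin: `N = d`, `ν = n`).

The map `par` records above which node each point lies: `par i = none` if `p i` is a point of the
toric modification of the Newton polyhedron of `f` at the origin, `par i = some j` if it is a point
of the toric modification of the Newton polyhedron of the chart at `p j` (the theorem holds for
every map `par`).

The theorem: adapted fans exist, and every pole `s₀` of `ZTot` is an integer, or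
`exp(2 π i s₀)` is a zero or a pole of one of the above monodromy zeta functions, or there is a
node `v` such that `N_i s₀` is an integer for some point `p i` above `v`, and Varchenko's
multiplicity of `exp(2 π i s₀)` for the Newton polyhedron at `v` is at most the sum of the Milnor
numbers `κ_i` of these points.  For `f = f_d + …` as above that multiplicity is
`((d-1)^n - (-1)^n)/d`, so the last case does not occur if the projective hypersurface
`f_d = 0` has total Milnor number less than `((d-1)^n - (-1)^n)/d`.
-/

namespace Pool.Agent.Results.MP_aa7fc1_ag.AlmostNondegenerate

open Mono

theorem result {n r : ℕ} (f : MvPolynomial (Fin n) ℂ) (p : Fin r → PointData n)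
    (par : Fin r → Option (Fin r)) (hf : f ≠ 0) (h0 : f.coeff 0 = 0)
    (hf2 : ∀ i j : Fin n, i ≠ j → ∃ d : Fin n →₀ ℕ, f.coeff d ≠ 0 ∧
      ∀ l, l ≠ i → l ≠ j → d l = 0) (hp : ∀ i, (p i).Good) :
    (∃ T : Fan n, Adapted (expo f) T) ∧ (∀ i, ∃ T : Fan n, Adapted (p i).A T) ∧
    ∀ (T : Fan n) (Tp : Fin r → Fan n), Adapted (expo f) T → (∀ i, Adapted (p i).A (Tp i)) →
    ∀ s₀ : ℂ, (ZTot f p T Tp).denom.eval s₀ = 0 →
      (∃ k : ℤ, s₀ = k) ∨
      ZeroOrPole (zetaTot f p) (Complex.exp (2 * Real.pi * Complex.I * s₀)) ∨
      (∃ k : Fin n, (∀ d : ℕ, f.coeff (Finsupp.single k d) = 0) ∧
        ZeroOrPole (zetaV (projK k (expo f))) (Complex.exp (2 * Real.pi * Complex.I * s₀))) ∨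
      (∃ i, (∀ d : ℕ, (p i).h.coeff (Finsupp.single (p i).z d) = 0) ∧
        ZeroOrPole (zetaV (projK (p i).z (p i).A))
          (Complex.exp (2 * Real.pi * Complex.I * s₀))) ∨
      (∃ v, (∃ i, par i = v ∧ ∃ k : ℤ, ((p i).N : ℂ) * s₀ = k) ∧
        multV (nodeA f p v) s₀ ≤ kapSum p par v s₀) := by
  have hS := spanT
  have hSC := starCoverT
  have hW := wallT hS hSC
  have hB := bdryT hS hSC
  have hK := kFormula hS hW hB idxPos idxWall idxBdry
  have hL := lowDegree hK
  have hA := algMain hS hSC
  have hBox := boxCount idxPos
  have hMF := multFormula hBox hS
  have hPV := pairVanish hL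
  have hCK := classKill hPV
  have hCM := classMain hA hMF hCK
  have hMN := multNonneg hA hMF
  have hCL := classLimit hL
  have hKZ := killZero volHeight
  have hLW := limitW hCL hKZ
  have hLO := laplaceOrthant hS hW hB idxPos idxWall idxBdry
  have hPr := primalAssembly idxPos hS hK hLO dualLattice (sideDual hS hSC) (sidePrimal hS hSC)
  have hSCt := simplexCount idxPos
  have hNV := nvolSum hSCt
  have hFZ := faceSumZ hNV
  have hFM := faceSumMult hNV
  have hZW := zwIdentity hPr hK
  have hZF := zFormula hZW hFZ hLW
  have hDF := dualFan fanOfGeneric genericHeights coneGen
  exact LocW.main newtonFan hDF hZF zEval poleLemma hCM hFM cycloLemma linkTri linkSum hMN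
    hZW hNV hL volHeight hA hMF hPV hBox hS hSC f p par hf h0 hf2 hp

end Pool.Agent.Results.MP_aa7fc1_ag.AlmostNondegenerate
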