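import Pool.Agent.Helper62.MonoW.Main
import Pool.Agent.Helper20.Mono.Final3
import Pool.Agent.Helper77.Mono.ZetaEmpty

/-!
# The root without any hypothesis on coordinate planes
-/

namespace Mono

namespace LocW

open Finset Fin20

variable {n : ℕ}

theorem ES_empty {A : Finset (Fin n → ℤ)} {b : Fin n → ℝ} (hA : A.Nonempty)
    (hnn : ∀ v ∈ A, ∀ i, 0 ≤ v i) (h0 : (0 : Fin n → ℤ) ∉ A) (hb : ∀ i, 0 < b i) (m : ℕ) :
    ES A ∅ b m = EV A m := by
  classical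
  unfold ES EV
  simp only [Helper77.projS_empty]
  refine Finset.sum_congr ?_ fun _ _ => rfl
  ext φ
  rw [Finset.mem_filter, Finset.mem_filter]
  constructor
  · rintro ⟨h1, h2, h3⟩
    exact ⟨Helper77.sub1 hnn hb h1 h2, h2, h3⟩
  · rintro ⟨h1, h2⟩
    exact ⟨Helper77.sub2 hA hnn h0 h1, h2⟩

/-- The poles of the contribution of the root. -/
theorem rootPoleS (hNF : FanB) (hZ : ZFormula)
    (hE : ZEval) (hP : PoleLemma) (hM : ClassMain) (hCS : CellSum)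
    {A : Finset (Fin n → ℤ)} (hn : 0 < n) (hne : A.Nonempty) (hnn : ∀ v ∈ A, ∀ i, 0 ≤ v i)
    (h0 : (0 : Fin n → ℤ) ∉ A) {b : Fin n → ℝ} (hb : ∀ i, 0 < b i)
    (hlin : LinearIndependent ℚ b)
    (T : Fan n) (hT : Adapted A T) (s₀ : ℂ) (hs₀ : (ZDL A T).denom.eval s₀ = 0) :
    s₀ = -1 ∨ ∃ r : ℚ, s₀ = -(r : ℂ) ∧ (r.den = 1 ∨ ∃ K : Finset (Fin n),
      ES A K b r.den ≠ 0) := by
  obtain ⟨Φ, Z, hTri, hCoh, hB⟩ := hNF n _ b hne hnn h0 hb hlin
  obtain ⟨q, hq, hpos, hZf⟩ := hZ n _ Z Φ hn hTri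
  have hpole := hP (ZDL A T) (Φ.mx.image (fun F => psi Z F (fun _ => (1 : ℝ)))) q (by
    intro s hs _
    have h1 := hE n A T hnn s hs
    refine ⟨h1.1, ?_⟩
    rw [h1.2, hZf T hT s hs]) s₀ hs₀
  rcases hpole with h | ⟨a, _, hqa, hsa⟩
  · exact Or.inl h
  · right
    have hex : ∃ σ c, Φ.IsClass σ c ∧ ∑ t ∈ σ \ Z, c t = a ∧ ¬ Φ.Kill Z σ := by
      by_contra hcon
      push Not at hcon
      exact hqa (hq a (fun σ c h1 h2 => hcon σ c h1 h2))
    obtain ⟨σ, c, hcl, hsum, hk⟩ := hex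
    obtain ⟨r, hr, hmain⟩ := hM n Φ hCoh Z σ hTri.2.2.2.2.2.1 c hcl
    have har : a = (r : ℝ) := by rw [← hsum, hr]
    have hs' : s₀ = -(r : ℂ) := by rw [hsa, har]; push_cast; rfl
    refine ⟨r, hs', ?_⟩
    by_contra hcon
    push Not at hcon
    obtain ⟨hden, hc1⟩ := hcon
    apply hk
    apply hmain hden
    exact mult_zero3 hCS hTri hB hb r.den Finset.inter_subset_right hc1

open Classical in
/-- Nonnegativity of the exponents at the root. -/
theorem root_nonnegS (hNF : FanB) (hMN : MultNonneg) (hFS : FaceSumMult) (hCS : CellSum)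
    {A : Finset (Fin n → ℤ)} (hne : A.Nonempty) (hnn : ∀ v ∈ A, ∀ i, 0 ≤ v i)
    (h0 : (0 : Fin n → ℤ) ∉ A) {b : Fin n → ℝ} (hb : ∀ i, 0 < b i)
    (hlin : LinearIndependent ℚ b) {m : ℕ} (hm0 : m ≠ 0) (hm1 : m ≠ 1)
    (hE : ∀ K : Finset (Fin n), K.Nonempty → ES A K b m = 0) :
    0 ≤ (-1) ^ (n - 1) * EV A m := by
  obtain ⟨Φ, Z, hTri, hcoh, hB⟩ := hNF n _ b hne hnn h0 hb hlin
  have hpos := hMN n Φ hcoh Z ∅ hTri.2.2.2.2.2.1 (Finset.empty_subset _) m hm0 hm1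
  have hZ := hTri.2.2.2.2.2.1.2.1
  have hmult : Φ.mult Z ∅ m = (-1) ^ (n - 1) * EV A m := by
    rw [← origin_part hFS hTri m]
    unfold Fan.mult
    -- the set of coordinates of `τ ∩ Z`
    let κ : Finset (Fin n → ℤ) → Finset (Fin n) := fun τ =>
      univ.filter (fun k => (Pi.single k 1 : Fin n → ℤ) ∈ τ ∩ Z)
    have hκ : ∀ τ, τ ∩ Z = eK (κ τ) := by
      intro τ
      ext u
      rw [mem_eK]
      constructor
      · intro hu
        obtain ⟨k, rfl⟩ := hZ u (mem_inter.1 hu).2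
        exact ⟨k, by simp only [κ, mem_filter]; exact ⟨mem_univ _, hu⟩, rfl⟩
      · rintro ⟨k, hk, rfl⟩
        exact (mem_filter.1 hk).2
    rw [← Finset.sum_fiberwise (Φ.faces.filter (fun τ => ∅ ⊆ τ ∧ ¬ τ ⊆ Z ∧
      τ.card = (cs τ).card ∧ m ∣ latDistZ Z τ)) κ]
    rw [← Finset.add_sum_erase _ _ (Finset.mem_univ (∅ : Finset (Fin n))),
      Finset.sum_eq_zero (s := univ.erase (∅ : Finset (Fin n))), add_zero]
    · refine Finset.sum_congr ?_ fun _ _ => rfl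
      ext τ
      simp only [mem_filter]
      constructor
      · rintro ⟨⟨h1, _, h3, h4, h5⟩, h6⟩
        refine ⟨h1, ?_, h3, h4, h5⟩
        rw [Finset.disjoint_iff_inter_eq_empty, hκ τ, h6]
        simp [eK]
      · rintro ⟨h1, h2, h3, h4, h5⟩
        refine ⟨⟨h1, Finset.empty_subset _, h3, h4, h5⟩, ?_⟩
        apply eK_inj
        rw [← hκ τ, Finset.disjoint_iff_inter_eq_empty.1 h2]
        simp [eK]
    · intro K hK
      have hK' : K.Nonempty := Finset.nonempty_iff_ne_empty.2 (Finset.ne_of_mem_erase hK)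
      rw [← stratum_part hCS hTri hB hb K m (hE K hK')]
      refine Finset.sum_congr ?_ fun _ _ => rfl
      ext τ
      simp only [mem_filter]
      constructor
      · rintro ⟨⟨h1, _, h3, h4, h5⟩, h6⟩
        exact ⟨h1, by rw [hκ τ, h6], h3, h4, h5⟩
      · rintro ⟨h1, h2, h3, h4, h5⟩
        exact ⟨⟨h1, Finset.empty_subset _, h3, h4, h5⟩, eK_inj (by rw [← hκ τ, h2])⟩
  rw [← hmult]
  exact hpos

end LocW

end Mono
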